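import Pool.Agent.Run7.h982.QP.Iface

/-! The Turan-Kubilius step for the averages restricted to a label and a progression. -/

set_option autoImplicit false
set_option linter.unusedSectionVars false

namespace Pool.Agent.Run7.h975.QP

open Finset Filter Topology MeasureTheory ProbabilityTheory
open scoped InnerProductSpace ENNReal
open Pool.Agent.K7.H83.MA Pool.Agent.Run7.h982.QP

universe u

section colours
variable {r : ℕ} (c : ℕ → Fin r) {Q : ℕ} (hQ : 0 < Q)

/-- the refined colouring -/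
def rc (p : ℕ) : Fin (r * Q) := finProdFinEquiv (c p, ⟨p % Q, Nat.mod_lt _ hQ⟩)

theorem rc_eq {p q : ℕ} (h : rc c hQ p = rc c hQ q) : c p = c q ∧ p % Q = q % Q := by
  unfold rc at h
  have h1 := finProdFinEquiv.injective h
  rw [Prod.mk.injEq] at h1
  exact ⟨h1.1, congrArg Fin.val h1.2⟩

theorem big_of {i : Fin (r * Q)} (hi : Big (rc c hQ) i) {p : ℕ} (hp : rc c hQ p = i) :
    Big c (c p) := by
  classical
  intro h
  apply hi
  refine Summable.of_nonneg_of_le (fun q => ?_) (fun q => ?_) h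
  · split_ifs
    · positivity
    · exact le_rfl
  · by_cases h1 : rc c hQ q = i
    · have h2 := rc_eq c hQ (h1.trans hp.symm)
      rw [if_pos h1, if_pos h2.1]
    · rw [if_neg h1]
      split_ifs
      · positivity
      · exact le_rfl

theorem dvd_of {p q : ℕ} (hp : p.Prime) (hq : q.Prime) (h : p % Q = q % Q) (hpQ : p ∣ Q) :
    p = q := by
  have h1 : p ≡ q [MOD Q] := h
  have h2 : p ≡ q [MOD p] := h1.of_dvd hpQ
  have h3 : p ∣ q := by
    have h4 : q % p = p % p := h2.symm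
    rw [Nat.mod_self] at h4
    exact Nat.dvd_of_mod_eq_zero h4
  exact (Nat.prime_dvd_prime_iff_eq hp hq).1 h3

theorem lab_eq {i : Fin (r * Q)} (hi : Big (rc c hQ) i) {p q : ℕ} (hp : p.Prime) (hq : q.Prime)
    (hpi : rc c hQ p = i) (hqi : rc c hQ q = i) :
    sp c Q p = sp c Q q ∧ gam c Q p = gam c Q q := by
  classical
  obtain ⟨h1, h2⟩ := rc_eq c hQ (hpi.trans hqi.symm)
  have hbp := big_of c hQ hi hpi
  have hbq := big_of c hQ hi hqi
  by_cases hpQ : p ∣ Q
  · have := dvd_of hp hq h2 hpQ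
    subst this
    exact ⟨rfl, rfl⟩
  by_cases hqQ : q ∣ Q
  · have := dvd_of hq hp h2.symm hqQ
    subst this
    exact ⟨rfl, rfl⟩
  have hsp : ¬ Sp c Q p := by
    unfold Sp; push Not; exact ⟨hbp, hpQ⟩
  have hsq : ¬ Sp c Q q := by
    unfold Sp; push Not; exact ⟨hbq, hqQ⟩
  refine ⟨?_, ?_⟩
  · rw [sp_prime c Q hp, sp_prime c Q hq, if_neg hsp, if_neg hsq]
  · unfold gam
    have hu : un c Q p = un c Q q := by
      rw [un_prime c Q hp, un_prime c Q hq, dif_pos ⟨cop_of c Q hp hsp, hsp⟩,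
        dif_pos ⟨cop_of c Q hq hsq, hsq⟩]
      apply Units.ext
      rw [ZMod.coe_unitOfCoprime, ZMod.coe_unitOfCoprime]
      exact (ZMod.natCast_eq_natCast_iff' p q Q).2 h2
    have hO : ∀ j, Om c Q j p = Om c Q j q := by
      intro j
      rw [Om_prime c Q j hp, Om_prime c Q j hq, h1]
      simp only [hsp, hsq]
    rw [hu]
    simp only [hO]

end colours

/-- TK -/
theorem t_TK (hA : S_APE.{u}) : S_TK.{u} := by
  classical
  intro X _ _ μ _ r c T h Q hQ k F1 F2 F4 h1 h2 h4 F hF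
  obtain ⟨C1, hC1, hF1⟩ := h1.2
  obtain ⟨C2, hC2, hF2⟩ := h2.2
  obtain ⟨C4, hC4, hF4⟩ := h4.2
  obtain ⟨i, hi⟩ := exists_big (rc c hQ)
  have hv : ApeS (fun k => koop μ T k F) := hA (Lp ℂ 2 μ) r c (koop μ T) h.FG F hF
  have hmain := tk_main (v := fun k => koop μ T k F) (D := ‖F‖)
    (fun k hk => (koop_norm (h.mp k hk) F).le) hv hi
    (fun m n => if (sp c Q m = Q ^ k ∧ gam c Q m = 0) ∧ n % Q = 1 % Q then
      mulB μ (ww T F1 F2 F4 m n) else 0) (B := C1 * (C2 * C4)) (by positivity)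
    (fun m n x hm hn => by
      split_ifs with h5
      · exact mulB_norm (ww_BM h h1 h2 h4 hm hn) (ww_bound hF1 hF2 hF4 hC1 hC2 m n) x
      · rw [_root_.zero_apply, norm_zero]
        positivity)
    (fun p q hp hq hpi hqi m n hm hn => by
      obtain ⟨e7, e8⟩ := lab_eq c hQ hi hp hq hpi hqi
      obtain ⟨e9, -⟩ := rc_eq c hQ (hpi.trans hqi.symm)
      have e10 : (sp c Q (p * m) = Q ^ k ∧ gam c Q (p * m) = 0) ↔
          (sp c Q (q * m) = Q ^ k ∧ gam c Q (q * m) = 0) := by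
        rw [sp_mul c Q hp.pos hm, sp_mul c Q hq.pos hm, gam_mul c Q hp.pos hm,
          gam_mul c Q hq.pos hm, e7, e8]
      have hmn := Nat.mul_pos hm hn
      have e11 : mulB μ (ww T F1 F2 F4 (p * m) n) = mulB μ (ww T F1 F2 F4 (q * m) n) := by
        refine mulB_congr (ww_BM h h1 h2 h4 (Nat.mul_pos hp.pos hm) hn)
          (ww_BM h h1 h2 h4 (Nat.mul_pos hq.pos hm) hn) ?_
        have hpq := h.fg p q hp hq e9
        filter_upwards [h.mul p m hp.pos hm, h.mul q m hq.pos hm, h.mul p (m * n) hp.pos hmn,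
          h.mul q (m * n) hq.pos hmn, (h.mp m hm).quasiMeasurePreserving.ae hpq,
          (h.mp (m * n) hmn).quasiMeasurePreserving.ae hpq] with x e1 e2 e3 e4 e5 e6
        unfold ww
        rw [mul_assoc p m n, mul_assoc q m n, e1, e2, e3, e4, e5, e6]
      simp only [e10, e11])
  refine hmain.congr fun N => ?_
  congr 1
  unfold lab cls
  rw [Finset.sum_filter]
  refine Finset.sum_congr rfl fun m _ => ?_
  by_cases h5 : sp c Q m = Q ^ k ∧ gam c Q m = 0
  · rw [if_pos h5, Finset.sum_filter]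
    refine Finset.sum_congr rfl fun n _ => ?_
    by_cases h6 : n % Q = 1 % Q
    · rw [if_pos ⟨h5, h6⟩, if_pos h6]
    · rw [if_neg (fun h7 => h6 h7.2), if_neg h6, _root_.zero_apply]
  · rw [if_neg h5]
    refine Finset.sum_eq_zero fun n _ => ?_
    rw [if_neg (fun h7 => h5 h7.1), _root_.zero_apply]

end Pool.Agent.Run7.h975.QP
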